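import Pool.Agent.H338R2.Smyth2

/-!
# The first coefficient of `P - P(0) P^*`

Complex version of `Pool.Agent.H338R2.smyth_lite`.
-/

set_option autoImplicit false

open Polynomial

namespace Pool.Agent.V5helper61.RSM

open Pool.Agent.H338R2

lemma coe_prod_B (m : Multiset ℂ) : (((m.map (fun a => (X - C a : ℂ[X]))).prod : ℂ[X]) : PowerSeries ℂ) =
    (m.map uB).prod := by
  induction m using Multiset.induction_on with
  | empty => simp
  | cons a m ih =>
    rw [Multiset.map_cons, Multiset.prod_cons, Multiset.map_cons, Multiset.prod_cons,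
      Polynomial.coe_mul, ih, toPS_X_sub_C]

lemma coe_prod_A (m : Multiset ℂ) :
    (((m.map (fun a => (1 - C (starRingEnd ℂ a) * X : ℂ[X]))).prod : ℂ[X]) : PowerSeries ℂ) =
      (m.map uA).prod := by
  induction m using Multiset.induction_on with
  | empty => simp
  | cons a m ih =>
    rw [Multiset.map_cons, Multiset.prod_cons, Multiset.map_cons, Multiset.prod_cons,
      Polynomial.coe_mul, ih]
    congr 1
    rw [uA]
    simp

lemma norm_prod_B (m : Multiset ℂ) :
    ‖PowerSeries.constantCoeff (m.map uB).prod‖ = (m.map (fun a => ‖a‖)).prod := by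
  induction m using Multiset.induction_on with
  | empty => simp
  | cons a m ih =>
    rw [Multiset.map_cons, Multiset.prod_cons, map_mul, norm_mul, ih, Multiset.map_cons,
      Multiset.prod_cons]
    congr 1
    simp [uB]

lemma norm_prod_A (m : Multiset ℂ) : ‖PowerSeries.constantCoeff (m.map uA).prod‖ = 1 := by
  induction m using Multiset.induction_on with
  | empty => simp
  | cons a m ih =>
    rw [Multiset.map_cons, Multiset.prod_cons, map_mul, norm_mul, ih]
    simp [uA]

/-- the real inequality -/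
lemma real_ineq {M A w f h : ℝ} (hM : 1 ≤ M) (hA : 0 < A) (hA1 : A ≤ 1) (hf : f ≤ 1 - A ^ 2)
    (hh : h ≤ 1 - (1 / M) ^ 2) (hw : 1 / M * w ≤ f + h * (A * M)) :
    w ≤ M ^ 2 * (2 * (2 * Real.log M - Real.log (A * M))) := by
  have hM0 : 0 < M := by linarith
  have e1 : Real.log (A * M) = Real.log A + Real.log M := Real.log_mul hA.ne' hM0.ne'
  have h1 : w ≤ M * (1 - A ^ 2) + A * (M ^ 2 - 1) := by
    have h2 : w = M * (1 / M * w) := by field_simp
    rw [h2]
    have h3 : f + h * (A * M) ≤ (1 - A ^ 2) + (1 - (1 / M) ^ 2) * (A * M) := by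
      have : h * (A * M) ≤ (1 - (1 / M) ^ 2) * (A * M) :=
        mul_le_mul_of_nonneg_right hh (by positivity)
      linarith
    have h4 : M * (1 / M * w) ≤ M * ((1 - A ^ 2) + (1 - (1 / M) ^ 2) * (A * M)) :=
      mul_le_mul_of_nonneg_left (hw.trans h3) hM0.le
    refine h4.trans (le_of_eq ?_)
    field_simp
  have l1 : 1 - A ^ 2 ≤ -(2 * Real.log A) := by
    have := Real.add_one_le_exp (2 * Real.log A)
    have e : Real.exp (2 * Real.log A) = A ^ 2 := by
      rw [mul_comm, Real.exp_mul, Real.exp_log hA]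
      norm_cast
    linarith
  have l2 : 1 - (1 / M) ^ 2 ≤ 2 * Real.log M := by
    have := Real.add_one_le_exp (-(2 * Real.log M))
    have e : Real.exp (-(2 * Real.log M)) = (1 / M) ^ 2 := by
      rw [Real.exp_neg, mul_comm, Real.exp_mul, Real.exp_log hM0, one_div, inv_pow]
      norm_cast
    linarith
  have l3 : M ^ 2 - 1 ≤ M ^ 2 * (2 * Real.log M) := by
    have h5 := mul_le_mul_of_nonneg_left l2 (by positivity : (0 : ℝ) ≤ M ^ 2)
    have e : M ^ 2 * (1 - (1 / M) ^ 2) = M ^ 2 - 1 := by field_simp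
    rw [e] at h5
    exact h5
  have hA2 : 0 ≤ 1 - A ^ 2 := by nlinarith
  have hM2 : 0 ≤ M ^ 2 - 1 := by nlinarith
  have h6 : M * (1 - A ^ 2) ≤ M ^ 2 * (-(2 * Real.log A)) :=
    calc M * (1 - A ^ 2) ≤ M ^ 2 * (1 - A ^ 2) := mul_le_mul_of_nonneg_right (by nlinarith) hA2
      _ ≤ _ := mul_le_mul_of_nonneg_left l1 (by positivity)
  have h7 : A * (M ^ 2 - 1) ≤ M ^ 2 * (2 * Real.log M) :=
    calc A * (M ^ 2 - 1) ≤ 1 * (M ^ 2 - 1) := mul_le_mul_of_nonneg_right hA1 hM2
      _ ≤ _ := by linarith
  rw [e1]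
  calc w ≤ M * (1 - A ^ 2) + A * (M ^ 2 - 1) := h1
    _ ≤ M ^ 2 * (-(2 * Real.log A)) + M ^ 2 * (2 * Real.log M) := add_le_add h6 h7
    _ = _ := by ring

theorem t_AN (P : ℂ[X]) (hP : P.Monic) (h0 : P.coeff 0 ≠ 0) (k : ℕ)
    (hk : ∀ j < k, (P - C (P.coeff 0) * (P.map (starRingEnd ℂ)).reverse).coeff j = 0) :
    ‖(P - C (P.coeff 0) * (P.map (starRingEnd ℂ)).reverse).coeff k‖ ≤
      P.mahlerMeasure ^ 2 * (2 * (2 * Real.log P.mahlerMeasure - Real.log ‖P.coeff 0‖)) := by
  classical
  set R := P.roots with hR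
  set s := R.filter (fun a => ‖a‖ ≤ 1) with hs
  set t := R.filter (fun a => ¬ ‖a‖ ≤ 1) with ht
  have hst : s + t = R := Multiset.filter_add_not _ _
  obtain ⟨F, hF1, hF2⟩ := exists_inner s (fun a ha => (Multiset.mem_filter.1 ha).2)
  obtain ⟨H, hH1, hH2⟩ := exists_inner' t (fun a ha => not_le.1 (Multiset.mem_filter.1 ha).2)
  have hprod : P = (R.map (fun a => (X - C a : ℂ[X]))).prod :=
    (IsAlgClosed.splits P).eq_prod_roots_of_monic hP
  have hPS : (P : PowerSeries ℂ) = (R.map uB).prod := by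
    rw [← coe_prod_B, ← hprod]
  -- the reverse polynomial
  set Q : ℂ[X] := (P.map (starRingEnd ℂ)).reverse with hQ
  have hrev : Q = (R.map (fun a => (1 - C (starRingEnd ℂ a) * X : ℂ[X]))).prod := by
    have h1 : P.map (starRingEnd ℂ) = ((R.map (starRingEnd ℂ)).map (fun a => (X - C a : ℂ[X]))).prod := by
      conv_lhs => rw [hprod]
      rw [Polynomial.map_multiset_prod, Multiset.map_map, Multiset.map_map]
      congr 1
      apply Multiset.map_congr rfl
      intro a _
      simp
    rw [hQ, h1, reverse_prod, Multiset.map_map]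
    rfl
  have hrevPS : (Q : PowerSeries ℂ) = (R.map uA).prod := by
    rw [hrev, coe_prod_A]
  -- the basic identity
  have hid : F * (Q : PowerSeries ℂ) = H * (P : PowerSeries ℂ) := by
    rw [hrevPS, hPS, ← hst, Multiset.map_add, Multiset.prod_add, Multiset.map_add,
      Multiset.prod_add, ← mul_assoc, hF1, ← hH1]
    ring
  set u0 : ℂ := P.coeff 0 with hu0
  set w : ℂ[X] := P - C u0 * Q with hw
  have hQlead : Q.coeff 0 = 1 := by
    rw [hQ, Polynomial.coeff_zero_reverse, (hP.map _).leadingCoeff]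
  -- the Mahler measure and the constant coefficients
  set M := P.mahlerMeasure with hM
  have hMt : M = (t.map (fun a => ‖a‖)).prod := by
    rw [hM, mahlerMeasure_eq_leadingCoeff_mul_prod_roots, hP.leadingCoeff, norm_one, one_mul, ← hR,
      ← hst, Multiset.map_add, Multiset.prod_add]
    have h5 : (s.map (fun a => max 1 ‖a‖)).prod = 1 := by
      apply Multiset.prod_eq_one
      intro x hx
      obtain ⟨a, ha, rfl⟩ := Multiset.mem_map.1 hx
      exact max_eq_left (Multiset.mem_filter.1 ha).2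
    have h6 : t.map (fun a => max 1 ‖a‖) = t.map (fun a => ‖a‖) := by
      apply Multiset.map_congr rfl
      intro a ha
      exact max_eq_right (not_le.1 (Multiset.mem_filter.1 ha).2).le
    rw [h5, h6, one_mul]
  have hM1 : 1 ≤ M := one_le_mahlerMeasure_of_one_le_norm_leadingCoeff (by
    rw [hP.leadingCoeff, norm_one])
  have hM0 : 0 < M := by linarith
  have hH0 : ‖PowerSeries.coeff 0 H‖ = 1 / M := by
    have h1 := congrArg (fun v => ‖PowerSeries.constantCoeff v‖) hH1
    simp only [map_mul, norm_mul] at h1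
    rw [norm_prod_B, norm_prod_A, ← hMt] at h1
    rw [PowerSeries.coeff_zero_eq_constantCoeff_apply]
    field_simp
    exact h1
  set A := (s.map (fun a => ‖a‖)).prod with hA
  have hF0 : ‖PowerSeries.coeff 0 F‖ = A := by
    have h1 := congrArg (fun v => ‖PowerSeries.constantCoeff v‖) hF1
    simp only [map_mul, norm_mul] at h1
    rw [norm_prod_B, norm_prod_A, mul_one] at h1
    rw [PowerSeries.coeff_zero_eq_constantCoeff_apply]
    exact h1
  have hu : ‖u0‖ = A * M := by
    have h1 : ‖PowerSeries.constantCoeff (P : PowerSeries ℂ)‖ = (R.map (fun a => ‖a‖)).prod := by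
      rw [hPS, norm_prod_B]
    rw [Polynomial.constantCoeff_coe] at h1
    rw [hu0, h1, hA, hMt, ← hst, Multiset.map_add, Multiset.prod_add]
  have hu0pos : 0 < ‖u0‖ := norm_pos_iff.2 h0
  have hA0 : 0 < A := by
    rw [hu] at hu0pos
    exact pos_of_mul_pos_left hu0pos hM0.le
  have hA1 : A ≤ 1 := by
    rw [hA]
    have : ∀ m : Multiset ℂ, (∀ a ∈ m, ‖a‖ ≤ 1) → (m.map (fun a => ‖a‖)).prod ≤ 1 := by
      intro m
      induction m using Multiset.induction_on with
      | empty => simp
      | cons a m ih =>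
        intro h
        rw [Multiset.map_cons, Multiset.prod_cons]
        exact mul_le_one₀ (h a (Multiset.mem_cons_self _ _))
          (Multiset.prod_nonneg (by
            intro x hx
            obtain ⟨b, -, rfl⟩ := Multiset.mem_map.1 hx
            exact norm_nonneg b)) (ih fun b hb => h b (Multiset.mem_cons_of_mem hb))
    exact this s fun a ha => (Multiset.mem_filter.1 ha).2
  rcases Nat.eq_zero_or_pos k with rfl | hkpos
  · have h1 : w.coeff 0 = 0 := by
      rw [hw, Polynomial.coeff_sub, Polynomial.coeff_C_mul, hQlead, mul_one, hu0, sub_self]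
    rw [h1, norm_zero, hu, Real.log_mul hA0.ne' hM0.ne']
    have h2 : 0 ≤ Real.log M := Real.log_nonneg hM1
    have h3 : Real.log A ≤ 0 := Real.log_nonpos hA0.le hA1
    have : 0 ≤ 2 * (2 * Real.log M - (Real.log A + Real.log M)) := by linarith
    positivity
  obtain ⟨w', hw'⟩ : X ^ k ∣ w := by
    rw [Polynomial.X_pow_dvd_iff]
    exact hk
  have hw'0 : w'.coeff 0 = w.coeff k := by
    rw [hw', mul_comm, Polynomial.coeff_mul_X_pow']
    simp
  have hfw : (P : PowerSeries ℂ) =
      PowerSeries.C u0 * (Q : PowerSeries ℂ) + PowerSeries.X ^ k * (w' : PowerSeries ℂ) := by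
    have h1 : P = C u0 * Q + X ^ k * w' := by rw [← hw', hw]; ring
    have h2 := congrArg (fun q : ℂ[X] => (q : PowerSeries ℂ)) h1
    simp only [Polynomial.coe_add, Polynomial.coe_mul, Polynomial.coe_C,
      Polynomial.coe_pow, Polynomial.coe_X] at h2
    exact h2
  set rv : PowerSeries ℂ := (Q : PowerSeries ℂ) with hrv
  have hrv0 : PowerSeries.constantCoeff rv = 1 := by
    rw [hrv, Polynomial.constantCoeff_coe, hQlead]
  have hrvunit : rv * rv⁻¹ = 1 := PowerSeries.mul_inv_cancel _ (by rw [hrv0]; exact one_ne_zero)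
  have hΔ : F - H * PowerSeries.C u0 = PowerSeries.X ^ k *
      (H * (w' : PowerSeries ℂ) * rv⁻¹) := by
    have h1 : (F - H * PowerSeries.C u0) * rv = PowerSeries.X ^ k *
        (H * (w' : PowerSeries ℂ)) := by
      rw [sub_mul, hid, hfw]
      ring
    calc F - H * PowerSeries.C u0 = (F - H * PowerSeries.C u0) * (rv * rv⁻¹) := by
          rw [hrvunit, mul_one]
      _ = ((F - H * PowerSeries.C u0) * rv) * rv⁻¹ := by ring
      _ = _ := by rw [h1]; ring
  have hck : PowerSeries.coeff k F - PowerSeries.coeff k H * u0 =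
      PowerSeries.coeff 0 H * w.coeff k := by
    have h1 := congrArg (PowerSeries.coeff k) hΔ
    rw [map_sub, PowerSeries.coeff_mul_C, PowerSeries.coeff_X_pow_mul'] at h1
    rw [h1, if_pos le_rfl, Nat.sub_self]
    have h2 : PowerSeries.constantCoeff (rv⁻¹) = 1 := by
      rw [PowerSeries.constantCoeff_inv, hrv0, inv_one]
    rw [PowerSeries.coeff_zero_eq_constantCoeff_apply, map_mul, map_mul, h2, mul_one,
      Polynomial.constantCoeff_coe, hw'0, PowerSeries.coeff_zero_eq_constantCoeff_apply]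
  have hHne : PowerSeries.coeff 0 H ≠ 0 := by
    intro h
    rw [h, norm_zero] at hH0
    have : 0 < 1 / M := by positivity
    linarith
  have hFne : PowerSeries.coeff 0 F ≠ 0 := by
    intro h
    rw [h, norm_zero] at hF0
    linarith
  have b1 := coeff_bound F hF2 k hkpos hFne
  have b2 := coeff_bound H hH2 k hkpos hHne
  rw [hF0] at b1
  rw [hH0] at b2
  have b3 : 1 / M * ‖w.coeff k‖ ≤ ‖PowerSeries.coeff k F‖ + ‖PowerSeries.coeff k H‖ * (A * M) := by
    have h1 := congrArg (fun v => ‖v‖) hck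
    simp only [norm_mul, hH0] at h1
    have h3 := norm_sub_le (PowerSeries.coeff k F) (PowerSeries.coeff k H * u0)
    rw [h1, norm_mul, hu] at h3
    exact h3
  rw [hu]
  exact real_ineq hM1 hA0 hA1 b1 b2 b3

end Pool.Agent.V5helper61.RSM
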